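import Pool.Agent.N202.NC.Stm

/-!
# NC/LEIB: the derivative of a tensor given by a rational tensor (helper427)
-/

set_option autoImplicit false

namespace Pool.Agent.N427.NC

open Matrix
open Pool.Agent.N202.CF (Tensor inL act der)

variable {ι : Type} [Fintype ι] [DecidableEq ι] {L : Type} [Field L] {n : ℕ}

/-- exchange of one index -/
lemma exch (e y : Matrix ι ι L) (a : Tensor ι n L) (v : Fin n → ι) (k : Fin n) :
    ∑ w, (∏ j ∈ Finset.univ.erase k, e (v j) (w j)) * (e * y) (v k) (w k) * a w =
      ∑ u, (∏ j, e (v j) (u j)) * ∑ i, y (u k) i * a (Function.update u k i) := by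
  have h1 : ∀ w : Fin n → ι, (∏ j ∈ Finset.univ.erase k, e (v j) (w j)) * (e * y) (v k) (w k) * a w =
      ∑ i, (∏ j ∈ Finset.univ.erase k, e (v j) (w j)) * (e (v k) i * y i (w k)) * a w := by
    intro w
    rw [Matrix.mul_apply, Finset.mul_sum, Finset.sum_mul]
  have h2 : ∀ u : Fin n → ι, (∏ j, e (v j) (u j)) * ∑ i, y (u k) i * a (Function.update u k i) =
      ∑ i, (∏ j, e (v j) (u j)) * (y (u k) i * a (Function.update u k i)) := by
    intro u
    rw [Finset.mul_sum]
  rw [Finset.sum_congr rfl fun w _ => h1 w, Finset.sum_congr rfl fun u _ => h2 u,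
    ← Finset.sum_product', ← Finset.sum_product']
  refine Finset.sum_nbij' (fun p => (Function.update p.1 k p.2, p.1 k))
    (fun p => (Function.update p.1 k p.2, p.1 k)) ?_ ?_ ?_ ?_ ?_
  · intro p _; exact Finset.mem_product.2 ⟨Finset.mem_univ _, Finset.mem_univ _⟩
  · intro p _; exact Finset.mem_product.2 ⟨Finset.mem_univ _, Finset.mem_univ _⟩
  · rintro ⟨w, i⟩ _; simp
  · rintro ⟨w, i⟩ _; simp
  · rintro ⟨w, i⟩ _
    simp only [Function.update_self, Function.update_idem, Function.update_eq_self]
    have h3 : ∏ j, e (v j) (Function.update w k i j) =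
        e (v k) i * ∏ j ∈ Finset.univ.erase k, e (v j) (w j) := by
      rw [← Finset.mul_prod_erase Finset.univ _ (Finset.mem_univ k), Function.update_self]
      congr 1
      refine Finset.prod_congr rfl fun j hj => ?_
      rw [Function.update_of_ne (Finset.ne_of_mem_erase hj)]
    rw [h3]
    ring

/-- the product rule -/
lemma der_prod {K : Type} [Field K] [Algebra K L] (D : Derivation K L L) {κ : Type}
    [DecidableEq κ] (s : Finset κ) (f : κ → L) :
    D (∏ k ∈ s, f k) = ∑ k ∈ s, (∏ j ∈ s.erase k, f j) * D (f k) := by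
  induction s using Finset.induction_on with
  | empty => simp
  | insert x s hx ih =>
    rw [Finset.prod_insert hx, Derivation.leibniz, ih, Finset.sum_insert hx,
      Finset.erase_insert hx, smul_eq_mul, smul_eq_mul, Finset.mul_sum, add_comm]
    congr 1
    refine Finset.sum_congr rfl fun k hk => ?_
    have hkx : x ≠ k := fun h => hx (h ▸ hk)
    rw [Finset.erase_insert_of_ne hkx,
      Finset.prod_insert (fun h => hx (Finset.mem_of_mem_erase h))]
    ring

theorem leib_ : Pool.Agent.N202.NC.S_LEIB := by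
  intro K L _ _ _ _ D ι _ _ n e e' hee a
  obtain ⟨y, hy⟩ : ∃ y, y = e' * e.map D := ⟨_, rfl⟩
  rw [← hy]
  have hey : e * y = e.map D := by rw [hy, ← mul_assoc, hee, one_mul]
  have hDq : ∀ q : ℚ, D (q : L) = 0 := by
    intro q
    rw [← map_ratCast (algebraMap K L) q, Derivation.map_algebraMap]
  funext v
  have h1 : D (act e (inL L a) v) =
      ∑ w, ∑ k, (∏ j ∈ Finset.univ.erase k, e (v j) (w j)) * (e * y) (v k) (w k) * inL L a w := by
    unfold act
    rw [map_sum]
    refine Finset.sum_congr rfl fun w _ => ?_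
    rw [Derivation.leibniz, der_prod]
    have h2 : D (inL L a w) = 0 := hDq _
    rw [h2, smul_zero, zero_add, smul_eq_mul, mul_comm, Finset.sum_mul]
    refine Finset.sum_congr rfl fun k _ => ?_
    rw [hey, Matrix.map_apply]
  rw [h1, Finset.sum_comm]
  have h3 : act e (der y (inL L a)) v =
      ∑ k, ∑ u, (∏ j, e (v j) (u j)) * ∑ i, y (u k) i * inL L a (Function.update u k i) := by
    unfold act der
    rw [Finset.sum_comm]
    refine Finset.sum_congr rfl fun u _ => ?_
    rw [Finset.mul_sum]
  rw [h3]
  exact Finset.sum_congr rfl fun k _ => exch e y (inL L a) v k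

end Pool.Agent.N427.NC
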